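import Pool.Agent.AESP.Graph
import Pool.Agent.AESP.Span
import Pool.Agent.SPS65.Main

/-!
# Oriented trees of bounded degree in tournaments with expanding or nearly transitive strong components

A set `X` of vertices of a tournament expands (`Expands R θ X`) if every `S ⊆ X` sends at least
`θ * |X| * min (|S|) (|X \ S|)` arcs to `X \ S`. It is sparse (`Sparse R m X`) if it has an ordering in which every vertex
is in at most `m` backward arcs. For all `Δ`, `m` and `θ > 0` there is `C` such that the following holds for every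
tournament `R` on `n` vertices, each of whose strong components expands or is sparse. Let `s` be the number of the vertices
which lie in strong components with more than one vertex that have fewer than `C` vertices or do not expand. If
`k + 1 + min C s ≤ n`, then `R` contains every oriented tree with `k` edges and maximum degree at most `Δ`. If `R` itself
expands and `C ≤ n`, then (`s = 0` and) any vertex of the tree can be placed at any vertex of `R`.
-/

namespace Pool.Agent.Results.MP_ae3412_co.ExpandingOrSparse

open Relation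

/-- The strong component of the vertex `v`: the vertices which are reachable from `v` and from which `v` is reachable. -/
def comp {n : ℕ} (R : Fin n → Fin n → Prop) (v : Fin n) : Set (Fin n) :=
  {u | ReflTransGen R v u ∧ ReflTransGen R u v}

/-- Every subset `S` of `X` sends at least `θ * |X| * min (|S|) (|X \ S|)` arcs to `X \ S`. -/
def Expands {n : ℕ} (R : Fin n → Fin n → Prop) (θ : ℝ) (X : Set (Fin n)) : Prop :=
  ∀ S ⊆ X, θ * X.ncard * (min S.ncard (X \ S).ncard : ℕ) ≤
    ({p : Fin n × Fin n | p.1 ∈ S ∧ p.2 ∈ X \ S ∧ R p.1 p.2}.ncard : ℝ)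

/-- `X` has an ordering (by the values of `σ`) in which every vertex `x` of `X` is in at most `m` backward arcs, that is,
arcs of `X` from a later to an earlier vertex. -/
def Sparse {n : ℕ} (R : Fin n → Fin n → Prop) (m : ℕ) (X : Set (Fin n)) : Prop :=
  ∃ σ : Fin n → ℕ, Set.InjOn σ X ∧
    ∀ x ∈ X, {y : Fin n | y ∈ X ∧ (σ y < σ x ∧ R x y ∨ σ x < σ y ∧ R y x)}.ncard ≤ m

theorem result : ∀ (Δ m : ℕ) (θ : ℝ), 0 < θ → ∃ C : ℕ, ∀ k n : ℕ, ∀ R : Fin n → Fin n → Prop,
    (∀ a, ¬ R a a) → (∀ a b, a ≠ b → R a b ∨ R b a) → (∀ a b, R a b → ¬ R b a) →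
    (∀ a : Fin n, Expands R θ (comp R a) ∨ Sparse R m (comp R a)) →
    k + 1 + min C {a : Fin n | 1 < (comp R a).ncard ∧
      ((comp R a).ncard < C ∨ ¬ Expands R θ (comp R a))}.ncard ≤ n →
    ∀ E : Fin (k + 1) → Fin (k + 1) → Prop,
      (∀ a b, E a b → ¬ E b a) →
      (SimpleGraph.fromRel E).IsTree →
      (∀ v, ((SimpleGraph.fromRel E).neighborSet v).ncard ≤ Δ) →
      ∀ (r : Fin (k + 1)) (v : Fin n), ∃ f : Fin (k + 1) → Fin n, Function.Injective f ∧
        (∀ a b, E a b → R (f a) (f b)) ∧ (Expands R θ Set.univ → C ≤ n → f r = v) :=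
  SPS65.main2 fun Δ θ hθ => AESP.final_span (fun b hb _ h0 h1 => AESP.span b hb h0 h1) Δ θ hθ

end Pool.Agent.Results.MP_ae3412_co.ExpandingOrSparse
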