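import Pool.Agent.AESY.FinalS

/-!
# Bounded-degree oriented trees with a large branch behind an edge whose long runs meet one path, or start behind light arcs, in
tournaments

For all `Δ`, `l` and `θ > 0` there are `K` and `C` such that every tournament on `n ≥ k + C` vertices contains every oriented
tree with `k` edges and maximum degree at most `Δ` which has an edge `u v` (directed either way) such that the component `B`
of `T - u v` which contains `v`, i.e. the set of the vertices which are nearer to `v` than to `u`, has at least `θ k` vertices
and one of the following holds: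

* there is a path `p` in `B` which starts at `v` such that, in the tree and in the tree with all arcs reversed, there is no
  directed path with `l + 1` arcs in `B` which leads towards `v` and has all its vertices, except possibly its last vertex,
  off `p`; for instance, all vertices of `B` are within distance `l` of `p`, or `l ≥ 2` and all branches which hang on `p` are
  antidirected; the orientation of `p` is arbitrary;
* for the arcs `F` of the tree, or for the reversed arcs: every directed path with `l + 1` arcs in `B` which leads towards `v`
  starts behind a light arc; for instance, there is no such path.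

Here light arcs lead from a vertex `y` of `B` at distance at least `5` from `v` to a neighbour `z` of `y` farther from `v`
which is not the main neighbour `h y` (a neighbour farther from `v` with the largest number of vertices behind it), and at most
`1 / K` times as many vertices as there are behind `y` have a directed path to `z` which leads towards `v`. The vertices behind
`y` are those `x` for which `y` is on the path from `u` to `x`. Behind a light arc, and outside `B`, the tree is arbitrary.
-/

set_option autoImplicit false

namespace Pool.Agent.Results.MP_ae3412_co.FreeEnd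

/-- The tree `G` is rooted at `u`: `h y` is a child of `y` with the largest number of vertices behind it, for all `y` with a
child (the vertices behind `y` are the `x` with `dist u x = dist u y + dist y x`) -/
def MainChild {τ : Type*} (G : SimpleGraph τ) (u : τ) (h : τ → τ) : Prop :=
  ∀ y z, G.Adj y z → G.dist u z = G.dist u y + 1 → G.Adj y (h y) ∧ G.dist u (h y) = G.dist u y + 1 ∧
    {x | G.dist u x = G.dist u z + G.dist z x}.ncard ≤ {x | G.dist u x = G.dist u (h y) + G.dist (h y) x}.ncard

/-- Let `B` be the component of `G - u v` which contains `v`, and `F` the arcs. For every directed path `q 0, …, q (l + 1)`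
in `B` towards `v` there is an arc from a vertex `y` of `B` at distance at least `5` from `v` to a child `z ≠ h y` such that
`q 0` is behind `z`, and `K` times the number of vertices behind `z` with a directed path to `z` is at most the number of
vertices behind `y` -/
def LightRuns {τ : Type*} (l K : ℕ) (F : τ → τ → Prop) (G : SimpleGraph τ) (u v : τ) (h : τ → τ) : Prop :=
  ∀ q : ℕ → τ, (∀ i ≤ l, F (q i) (q (i + 1)) ∧ G.dist v (q (i + 1)) < G.dist v (q i)) → G.dist v (q 0) < G.dist u (q 0) →
    ∃ y z, G.dist v y < G.dist u y ∧ 5 ≤ G.dist v y ∧ F y z ∧ G.dist u z = G.dist u y + 1 ∧ z ≠ h y ∧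
      K * {x | Relation.ReflTransGen (fun a b => F a b ∧ G.dist u a = G.dist u b + 1) x z}.ncard ≤
        {x | G.dist u x = G.dist u y + G.dist y x}.ncard ∧
      G.dist u (q 0) = G.dist u z + G.dist z (q 0)

theorem result : ∀ (Δ l : ℕ) (θ : ℝ), 0 < θ → ∃ K C : ℕ, ∀ k n : ℕ, k + C ≤ n → ∀ R : Fin n → Fin n → Prop,
    (∀ a, ¬ R a a) → (∀ a b, a ≠ b → R a b ∨ R b a) → (∀ a b, R a b → ¬ R b a) →
    ∀ (E : Fin (k + 1) → Fin (k + 1) → Prop) (G : SimpleGraph (Fin (k + 1))),
      (∀ a b, E a b → ¬ E b a) → G = SimpleGraph.fromRel E →
      G.IsTree → (∀ v, (G.neighborSet v).ncard ≤ Δ) →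
      (∃ u v, G.Adj u v ∧
        -- `B = {x | G.dist v x < G.dist u x}` is the component of `T - u v` which contains `v`
        θ * k ≤ ({x | G.dist v x < G.dist u x}.ncard : ℝ) ∧
        ((∃ (p : ℕ → Fin (k + 1)) (m : ℕ), p 0 = v ∧
            (∀ i < m, G.Adj (p i) (p (i + 1)) ∧ G.dist u (p (i + 1)) = G.dist u (p i) + 1) ∧
            -- no directed path `q 0, …, q (l + 1)` in `B` towards `v` with `q 0, …, q l` off the path `p 0, …, p m`
            ∀ F : Fin (k + 1) → Fin (k + 1) → Prop, (F = E ∨ F = fun x y => E y x) → ∀ q : ℕ → Fin (k + 1),
              (∀ i ≤ l, F (q i) (q (i + 1)) ∧ G.dist v (q (i + 1)) < G.dist v (q i) ∧ ∀ j ≤ m, q i ≠ p j) →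
              ¬ G.dist v (q 0) < G.dist u (q 0)) ∨
          ∃ (F : Fin (k + 1) → Fin (k + 1) → Prop) (h : Fin (k + 1) → Fin (k + 1)), (F = E ∨ F = fun x y => E y x) ∧
            MainChild G u h ∧ LightRuns l K F G u v h)) →
      ∃ f : Fin (k + 1) → Fin n, Function.Injective f ∧ ∀ a b, E a b → R (f a) (f b) :=
  AESY.free_endS

end Pool.Agent.Results.MP_ae3412_co.FreeEnd
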