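import Pool.Agent.AEW.XMain
import Pool.Agent.AEW.XExact

/-!
# Almost all orientations of a bounded-degree tree are unavoidable

For every `Δ` and `ε > 0` there is a constant `K` such that the following holds for every tree `G` with `k` edges and
maximum degree at most `Δ`. Direct every edge `ab` of `G` independently, from `a` to `b` with probability `q a b` and from
`b` to `a` with probability `q b a = 1 - q a b`, where all these probabilities are at least `ε`. Then with probability at
least `1 - 2 ^ (-⌊k / K⌋)` the resulting oriented tree is contained in every tournament with `k + 1` vertices.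

Below `O` is the set of all orientations of `G`, `B` the set of those which are not contained in some tournament on
`k + 1` vertices, and the product is the probability of the orientation `E`.
-/

namespace Pool.Agent.Results.MP_ae3412_co.UnavoidableOrientations

open Classical in
theorem result : ∀ Δ : ℕ, ∀ ε : ℝ, 0 < ε → ∃ K : ℕ, 1 ≤ K ∧ ∀ k : ℕ,
    ∀ G : SimpleGraph (Fin (k + 1)), G.IsTree → (∀ v, (G.neighborSet v).ncard ≤ Δ) →
    ∀ q : Fin (k + 1) → Fin (k + 1) → ℝ, (∀ a b, G.Adj a b → ε ≤ q a b ∧ q a b + q b a = 1) →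
    ∃ O B : Finset (Fin (k + 1) → Fin (k + 1) → Prop),
      (∀ E, E ∈ O ↔ (∀ a b, E a b → ¬ E b a) ∧ SimpleGraph.fromRel E = G) ∧
      (∀ E, E ∈ B ↔ E ∈ O ∧ ∃ R : Fin (k + 1) → Fin (k + 1) → Prop,
        (∀ a, ¬ R a a) ∧ (∀ a b, a ≠ b → R a b ∨ R b a) ∧ (∀ a b, R a b → ¬ R b a) ∧
        ¬ ∃ f : Fin (k + 1) → Fin (k + 1), Function.Injective f ∧ ∀ a b, E a b → R (f a) (f b)) ∧
      (∑ E ∈ O, ∏ a, ∏ b, if E a b then q a b else 1) = 1 ∧
      (∑ E ∈ B, ∏ a, ∏ b, if E a b then q a b else 1) ≤ 1 / 2 ^ (k / K) := by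
  intro Δ ε hε
  obtain ⟨K, hK, hC⟩ := AEW.expoX_of (AEW.probX_of_absorb AEW.absorbX) Δ hε
  refine ⟨K, hK, ?_⟩
  intro k G hG hdeg q hq
  refine ⟨(Set.toFinite (AEJT.Ori G)).toFinset, (Set.toFinite _).toFinset, ?_, ?_, ?_, hC k G hG hdeg q hq⟩
  · intro E
    rw [Set.Finite.mem_toFinset]
    rfl
  · intro E
    rw [Set.Finite.mem_toFinset, Set.Finite.mem_toFinset]
    rfl
  · exact AEJT.wt_total hG hq

end Pool.Agent.Results.MP_ae3412_co.UnavoidableOrientations
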